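import Pool.Agent.Helper66_KF.Ring
import Pool.Agent.Helper66_DF.StmtsE2

/-!
# Squad KF: blocks with Klein four defect groups have four characters, and the alternating sum
vanishes

Text: `AWC_KF.md`.  `ℓ = 2`, `M` a maximal ideal of the algebraic integers which contains `2`,
`F = FF M`.
-/

open scoped BigOperators

noncomputable section

namespace Pool.Agent.PP.KF

open Pool.Agent.Helper51_AWC Pool.Agent.Helper79_WRA Pool.Agent.PP

attribute [local instance] Ideal.Quotient.field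

section defs

variable {G : Type} [Group G]

/-- the value of `χ` at the element `a` of the group ring -/
def chv (a χ : G → ℂ) : ℂ := ∑ᶠ g, a g * χ g

variable (M : Ideal (integralClosure ℤ ℂ)) [M.IsMaximal]

/-- the irreducible characters in the idempotent `e` -/
def IrrE (e : G → FF M) : Set (G → ℂ) := {χ | χ ∈ Irr G ∧ res M e χ = 1}

/-- the lift of the central idempotent `e` to the complex group ring -/
def eh (e : G → FF M) : G → ℂ :=
  fun g => (Nat.card G : ℂ)⁻¹ * ∑ᶠ χ ∈ IrrE M e, χ 1 * χ g⁻¹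

/-- the centraliser of `u` -/
abbrev Cu (u : G) : Subgroup G := Subgroup.centralizer ({u} : Set G)

/-- the element `u b` of the group ring of `G`, `b` in the group ring of the centraliser of `u` -/
def ub (u : G) (b : Cu u → ℂ) : G → ℂ := fun g => PP.ext0 (Cu u) b (u⁻¹ * g)

/-- `f` has four characters, all of degree `a`, and `4 a / |X|` is a unit of the local ring. -/
structure Hb {X : Type} [Group X] (f : X → FF M) (a : ℕ) : Prop where
  card : (IrrE M f).ncard = 4
  deg : ∀ θ ∈ IrrE M f, θ 1 = a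
  unit : (4 * a / Nat.card X : ℂ) ∈ RM M
  unit' : (Nat.card X / (4 * a) : ℂ) ∈ RM M

/-- `e` vanishes at the elements whose centraliser has order divisible by `8` -/
def Bd8 {F : Type} [Field F] (e : G → F) : Prop :=
  ∀ g, e g ≠ 0 → ¬ 8 ∣ Nat.card (Subgroup.centralizer ({g} : Set G))

/-- an involution -/
structure Inv2 (u : G) : Prop where
  sq : u * u = 1
  ne : u ≠ 1

/-- The groups which embed into the Klein four group. -/
def V4 : (Q : Type) → [Group Q] → Prop :=
  fun Q _ => ∃ j : Q →* Multiplicative (ZMod 2) × Multiplicative (ZMod 2), Function.Injective j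

/-- a block with Klein four defect groups -/
structure VB {F : Type} [Field F] (e : G → F) : Prop where
  blk : IsBlk e
  df : DF.DfE 2 V4 e ⊤
  ex : ∃ V : Subgroup G, Nat.card V = 4 ∧ ∃ g ∈ Subgroup.centralizer (V : Set G), e g ≠ 0

end defs

/-! ## 1. Integrality and traces -/

/-- TRM: an involution on a projective lattice whose reduction is free has trace zero. -/
def TrmStmt : Prop := ∀ (M : Ideal (integralClosure ℤ ℂ)) [M.IsMaximal],
  (2 : integralClosure ℤ ℂ) ∈ M → ∀ (n : Type) [Fintype n] [DecidableEq n] (P U : Matrix n n ℂ),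
  (∀ i j, P i j ∈ RM M) → (∀ i j, U i j ∈ RM M) → P * P = P → U * U = 1 → U * P = P * U →
  (∀ v : n → FF M, (P.map (rr M)).mulVec v = v → (U.map (rr M)).mulVec v = v →
    ∃ w, (P.map (rr M)).mulVec w = w ∧ v = w + (U.map (rr M)).mulVec w) → (U * P).trace = 0

/-- IDM: the lift of a central idempotent has coefficients in the local ring. -/
def IdmStmt : Prop := ∀ (M : Ideal (integralClosure ℤ ℂ)) [M.IsMaximal] (G : Type) [Group G]
  [Finite G] (e : G → FF M), IsIdem e →
  (∀ g, eh M e g ∈ RM M ∧ rr M (eh M e g) = e g) ∧ IsIdem (eh M e) ∧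
  ∀ χ ∈ Irr G, ∀ a : G → ℂ, (res M e χ = 1 → chv (mulF (eh M e) a) χ = chv a χ) ∧
    (res M e χ ≠ 1 → chv (mulF (eh M e) a) χ = 0)

/-- TRC: the trace of `x ↦ a x b` on the group ring. -/
def TrcStmt : Prop := ∀ (G : Type) [Group G] [Finite G] (a b : G → ℂ),
  ∑ᶠ χ ∈ Irr G, chv a χ * chv b χ = ∑ᶠ (x : G) (g : G), a g * b (x⁻¹ * g⁻¹ * x)

/-- MUL: `χ(u b)` is an integral multiple of the common degree `a` of the characters of `b`. -/
def MulStmt : Prop := ∀ (M : Ideal (integralClosure ℤ ℂ)) [M.IsMaximal] (G : Type) [Group G]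
  [Finite G] (u : G), Inv2 u → ∀ b : Cu u → FF M, IsIdem b → ∀ a : ℕ,
  (∀ θ ∈ IrrE M b, θ 1 = a) → ∀ χ ∈ Irr G, ∃ d : ℤ, chv (ub u (eh M b)) χ = a * d

/-- SQA: the sum of the squares of `χ(u b)` over all `χ`. -/
def SqaStmt : Prop := ∀ (M : Ideal (integralClosure ℤ ℂ)) [M.IsMaximal],
  (2 : integralClosure ℤ ℂ) ∈ M → ∀ (G : Type) [Group G] [Finite G] (u : G), Inv2 u →
  ∀ b : Cu u → FF M, IsIdem b →
  ∑ᶠ χ ∈ Irr G, chv (ub u (eh M b)) χ ^ 2 = ∑ᶠ θ ∈ IrrE M b, θ 1 ^ 2

/-- SQB: the second main theorem. -/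
def SqbStmt : Prop := ∀ (M : Ideal (integralClosure ℤ ℂ)) [M.IsMaximal],
  (2 : integralClosure ℤ ℂ) ∈ M → ∀ (G : Type) [Group G] [Finite G] (u : G), Inv2 u →
  ∀ b : Cu u → FF M, IsIdem b → ∀ e : G → FF M, IsIdem e → mulF (fun t : Cu u => e t) b = b →
  ∑ᶠ χ ∈ {χ : G → ℂ | χ ∈ Irr G ∧ res M e χ ≠ 1}, chv (ub u (eh M b)) χ ^ 2 = 0

/-- LIN: the lift of an idempotent vanishes at the involutions. -/
def LinStmt : Prop := ∀ (M : Ideal (integralClosure ℤ ℂ)) [M.IsMaximal],
  (2 : integralClosure ℤ ℂ) ∈ M → ∀ (G : Type) [Group G] [Finite G] (e : G → FF M), IsIdem e →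
  ∀ z : G, Inv2 z → eh M e z = 0

/-- OMC: the central characters of a block at the conjugates of `u b`. -/
def OmcStmt : Prop := ∀ (M : Ideal (integralClosure ℤ ℂ)) [M.IsMaximal] (G : Type) [Group G]
  [Finite G] (u : G) (b : Cu u → FF M), IsIdem b → ∀ e : G → FF M, IsBlk e →
  ∀ χ ∈ IrrE M e, ∀ χ' ∈ IrrE M e,
    (Nat.card G * chv (ub u (eh M b)) χ / (Nat.card (Cu u) * χ 1)) ∈ RM M ∧
    rr M (Nat.card G * chv (ub u (eh M b)) χ / (Nat.card (Cu u) * χ 1)) =
      rr M (Nat.card G * chv (ub u (eh M b)) χ' / (Nat.card (Cu u) * χ' 1))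

/-- HGT: the degrees of the characters of a block whose defect is at most two. -/
def HgtStmt : Prop := ∀ (M : Ideal (integralClosure ℤ ℂ)) [M.IsMaximal],
  (2 : integralClosure ℤ ℂ) ∈ M → ∀ (G : Type) [Group G] [Finite G] (e : G → FF M), IsIdem e →
  Bd8 e → ∀ χ ∈ IrrE M e, (4 * χ 1 / Nat.card G) ∈ RM M

/-! ## 2. The main lemma -/

/-- LK: from a block `b` of the centraliser of the involution `u` to the block `e`. -/
def LkStmt : Prop := ∀ (M : Ideal (integralClosure ℤ ℂ)) [M.IsMaximal],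
  (2 : integralClosure ℤ ℂ) ∈ M → ∀ (G : Type) [Group G] [Finite G] (e : G → FF M), IsBlk e →
  Bd8 e → ∀ u : G, Inv2 u → ∀ b : Cu u → FF M, IsBlk b → mulF (fun t : Cu u => e t) b = b →
  ∀ a : ℕ, Hb M b a → (IrrE M e).ncard = 4 ∧
    ∃ d : (G → ℂ) → ℤ, (∀ χ ∈ IrrE M e, (d χ = 1 ∨ d χ = -1) ∧
      (4 * χ 1 / Nat.card G) ∈ RM M ∧ (Nat.card G / (4 * χ 1)) ∈ RM M) ∧
    ∀ z ∈ Subgroup.center G, z * z = 1 → z ≠ u → ∑ᶠ χ ∈ IrrE M e, (d χ : ℂ) * χ z = 0

/-! ## 3. Central defect groups -/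

/-- CQU: a central subgroup of order two at most doubles the rank. -/
def CquStmt : Prop := ∀ (F : Type) [Field F], GoodF 2 F → ∀ (A B : Type) [Group A] [Finite A]
  [Group B] [Finite B] (p : A →* B), Function.Surjective p → p.ker ≤ Subgroup.center A →
  Nat.card p.ker = 2 → ∀ e : A → F, IsIdem e →
    rk e (cfs F A) ≤ 2 * rk (H75.push p e) (cfs F B)

/-- CDZ: the block of the quotient by the central defect group has one character. -/
def CdzStmt : Prop := ∀ (F : Type) [Field F], GoodF 2 F → ∀ (A B : Type) [Group A] [Finite A]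
  [Group B] [Finite B] (p : A →* B), Function.Surjective p → p.ker ≤ Subgroup.center A →
  Nat.card p.ker = 4 → ∀ e : A → F, IsBlk e → Bd8 e →
    rk (H75.push p e) (cfs F B) ≤ 1

/-- ST1: central defect group of order four. -/
def St1Stmt : Prop := ∀ (M : Ideal (integralClosure ℤ ℂ)) [M.IsMaximal],
  (2 : integralClosure ℤ ℂ) ∈ M → ∀ (H : Type) [Group H] [Finite H] (u v : H), Inv2 u → Inv2 v →
  u ≠ v → u ∈ Subgroup.center H → v ∈ Subgroup.center H → ∀ b : H → FF M, IsBlk b → Bd8 b →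
  ∃ a, Hb M b a

/-- ST2: one central involution. -/
def St2Stmt : Prop := ∀ (M : Ideal (integralClosure ℤ ℂ)) [M.IsMaximal],
  (2 : integralClosure ℤ ℂ) ∈ M → ∀ (G : Type) [Group G] [Finite G] (u v : G), Inv2 u → Inv2 v →
  u ≠ v → u ∈ Subgroup.center G → ∀ e : G → FF M, IsBlk e → Bd8 e →
  ∀ b : Cu v → FF M, IsBlk b → mulF (fun t : Cu v => e t) b = b → (∃ a', Hb M b a') →
  ∃ a, Hb M e a

/-- K4: the number of characters of a block with Klein four defect groups is four. -/
def K4Stmt : Prop := ∀ (M : Ideal (integralClosure ℤ ℂ)) [M.IsMaximal],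
  (2 : integralClosure ℤ ℂ) ∈ M → ∀ (G : Type) [Group G] [Finite G] (e : G → FF M), VB e →
  (IrrE M e).ncard = 4

/-! ## 4. The first main theorem -/

/-- FM4: the defect groups are conjugate, and the Brauer map gives a block of the normaliser. -/
def Fm4Stmt : Prop := ∀ (M : Ideal (integralClosure ℤ ℂ)) [M.IsMaximal],
  (2 : integralClosure ℤ ℂ) ∈ M → ∀ (X : Type) [Group X] [Finite X] (b : X → FF M), VB b →
  (∀ V V' : Subgroup X, Nat.card V = 4 → Nat.card V' = 4 →
    (∃ g ∈ Subgroup.centralizer (V : Set X), b g ≠ 0) →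
    (∃ g ∈ Subgroup.centralizer (V' : Set X), b g ≠ 0) → ∃ g : X, V' = conjS g V) ∧
  ∀ V : Subgroup X, Nat.card V = 4 → (∃ g ∈ Subgroup.centralizer (V : Set X), b g ≠ 0) →
    VB (fun t : Subgroup.normalizer (V : Set X) => br V b t)

/-- DU4: the blocks of the centraliser of an involution under a block with Klein four defect
groups. -/
def Du4Stmt : Prop := ∀ (M : Ideal (integralClosure ℤ ℂ)) [M.IsMaximal],
  (2 : integralClosure ℤ ℂ) ∈ M → ∀ (X : Type) [Group X] [Finite X] (b : X → FF M), VB b →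
  ∀ u : X, Inv2 u → ∀ c : Cu u → FF M, IsBlk c →
  mulF (fun t : Cu u => b t) c = c → VB c

/-- IDN: the counting identity for an idempotent whose blocks have Klein four defect groups. -/
def IdnStmt : Prop := ∀ (M : Ideal (integralClosure ℤ ℂ)) [M.IsMaximal],
  (2 : integralClosure ℤ ℂ) ∈ M → ∀ (X : Type) [Group X] [Finite X] (f : X → FF M), IsIdem f →
  (∀ c : X → FF M, IsBlk c → mulF f c = c → VB c) →
  ∑ᶠ (V : Subgroup X) (_ : Nat.card V = 4), Nat.card (Subgroup.normalizer (V : Set X)) *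
      rk (fun t : Subgroup.normalizer (V : Set X) => br V f t)
        (cfs (FF M) (Subgroup.normalizer (V : Set X))) =
    Nat.card X * rk f (cfs (FF M) X)

/-- CT4: the alternating sum vanishes for a block with Klein four defect groups. -/
def Ct4Stmt : Prop := ∀ (M : Ideal (integralClosure ℤ ℂ)) [M.IsMaximal],
  (2 : integralClosure ℤ ℂ) ∈ M → ∀ (G : Type) [Group G] [Finite G] (e : G → FF M), VB e →
  YY 2 ⊤ e = 0

/-- GQ4: the hypothesis of the reduction theorem for the class `V4`. -/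
def Gq4Stmt : Prop := ∀ (M : Ideal (integralClosure ℤ ℂ)) [M.IsMaximal],
  (2 : integralClosure ℤ ℂ) ∈ M → ∀ (G : Type) [Group G] [Finite G] (e : G → FF M), IsIdem e →
  Pos 2 e ⊤ → DF.DfE 2 V4 e ⊤ → YY 2 ⊤ e = 0

end Pool.Agent.PP.KF
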