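import Pool.Agent.Helper66_KF.FinKF
import Pool.Agent.Helper4_KF.Cqu
import Pool.Agent.Helper24_KF.Du4
import Pool.Agent.Helper43_DF.Fst
import Pool.Agent.Helper43_DF.Cov
import Pool.Agent.Helper66_DF.AsmDF
import Pool.Agent.Helper25_KF.Idm
import Pool.Agent.Helper30_KF.Mul
import Pool.Agent.Helper32_KF.Cdz
import Pool.Agent.Helper32_KF.St1
import Pool.Agent.Helper48_KF.Trm
import Pool.Agent.Helper55_KF.Fm4
import Pool.Agent.Helper56_KF.Ct4
import Pool.Agent.Helper60_KF.Hgt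
import Pool.Agent.Helper65_KF.Omc
import Pool.Agent.Helper66_DF.Dfq
import Pool.Agent.Helper60_KF.Lin
import Pool.Agent.Helper69_KF.K4
import Pool.Agent.Helper71_KF.Sqa
import Pool.Agent.Helper77_KF.Trc
import Pool.Agent.Helper92_KF.Lk
import Pool.Agent.Helper92_KF.Sqb
import Pool.Agent.Helper97_KF.ST2
import Pool.Agent.Helper99_KF.Idn
import Pool.Agent.Helper99_KF.Gq4
import Pool.Agent.Helper97_PP.Kri
import Pool.Agent.Helper66_D2.AsmD2
import Pool.Agent.Helper63_PP.Smt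

/-!
# Squad KF: assembly
-/

open scoped BigOperators

set_option linter.unusedSectionVars false

noncomputable section

namespace Pool.Agent.PP.KF

open Pool.Agent.Helper51_AWC Pool.Agent.Helper79_WRA Pool.Agent.PP

section asm

theorem lin_ : LinStmt := H60.lin H48.trm H25.idm

theorem sqa_ : SqaStmt := H71.sqa H48.trm H25.idm trc

theorem sqb_ : SqbStmt := H92.sqb H48.trm H25.idm trc

theorem omc_ : OmcStmt := H65.omc H25.idm

theorem lk_ : LkStmt :=
  H92.lk H30.mul_ sqa_ sqb_ lin_ omc_ H60.hgt trc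

theorem st1_ : St1Stmt := H32.st1 H4.cqu H32.cdz lin_ H60.hgt

theorem k4_ : K4Stmt := H69.k4 st1_ (H97.st2 lk_ lin_) lk_

theorem idn_ : IdnStmt := H99.idn k4_ H55.fm4

theorem ct4_ : Ct4Stmt :=
  H56.ct4 idn_ (H24.du4 D1.H9.inv) (PP.H97.knr H63.smt H20.brm H94.nch H20.nls)

theorem gq4_ : Gq4Stmt :=
  H99.gq4 ct4_ CD2.Asm.d2a_ H9.addStmt

theorem fst_ : DF.FstStmt := DF.H43.fst D1.H9.inv

end asm

end Pool.Agent.PP.KF
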