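import Pool.Agent.Helper50_PP.Res
import Pool.Agent.Helper94_PP.StmtsKR

/-!
# Squad KF: the local ring of the algebraic integers at `M`

`RM M` is the ring of the complex numbers `z` with `s z = t`, `s`, `t` algebraic integers, `s` not
in `M`; `rr M : ℂ → FF M` is its residue map, extended by zero.
-/

open scoped BigOperators

noncomputable section

namespace Pool.Agent.PP.KF

open Pool.Agent.Helper51_AWC Pool.Agent.Helper79_WRA Pool.Agent.PP

attribute [local instance] Ideal.Quotient.field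

section ring

variable (M : Ideal (integralClosure ℤ ℂ)) [hM : M.IsMaximal]

/-- the quotients of algebraic integers with denominator outside `M` -/
def RM : Subring ℂ where
  carrier := {z | ∃ s t : integralClosure ℤ ℂ, s ∉ M ∧ (s : ℂ) * z = t}
  one_mem' := ⟨1, 1, fun h => hM.ne_top ((Ideal.eq_top_iff_one M).2 h), by simp⟩
  zero_mem' := ⟨1, 0, fun h => hM.ne_top ((Ideal.eq_top_iff_one M).2 h), by simp⟩
  mul_mem' := by
    rintro a b ⟨s, t, hs, h⟩ ⟨s', t', hs', h'⟩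
    refine ⟨s * s', t * t', fun h0 => ?_, ?_⟩
    · rcases hM.isPrime.mem_or_mem h0 with h1 | h1
      · exact hs h1
      · exact hs' h1
    · push_cast
      rw [← h, ← h']
      ring
  add_mem' := by
    rintro a b ⟨s, t, hs, h⟩ ⟨s', t', hs', h'⟩
    refine ⟨s * s', t * s' + t' * s, fun h0 => ?_, ?_⟩
    · rcases hM.isPrime.mem_or_mem h0 with h1 | h1
      · exact hs h1
      · exact hs' h1
    · push_cast
      rw [← h, ← h']
      ring
  neg_mem' := by
    rintro a ⟨s, t, hs, h⟩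
    refine ⟨s, -t, hs, ?_⟩
    push_cast
    rw [← h]
    ring

variable {M}

theorem mem_RM {z : ℂ} : z ∈ RM M ↔ ∃ s t : integralClosure ℤ ℂ, s ∉ M ∧ (s : ℂ) * z = t :=
  Iff.rfl

theorem one_notMem : (1 : integralClosure ℤ ℂ) ∉ M :=
  fun h => hM.ne_top ((Ideal.eq_top_iff_one M).2 h)

theorem RM_of_int {z : ℂ} (h : IsIntegral ℤ z) : z ∈ RM M :=
  ⟨1, ⟨z, h⟩, one_notMem, by simp⟩

variable (M) in
open Classical in
/-- the residue map of `RM M`, extended by zero -/
def rr (z : ℂ) : FF M :=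
  if h : z ∈ RM M then Ideal.Quotient.mk M h.choose_spec.choose *
    (Ideal.Quotient.mk M h.choose)⁻¹ else 0

theorem mk_ne {s : integralClosure ℤ ℂ} (h : s ∉ M) : (Ideal.Quotient.mk M s : FF M) ≠ 0 :=
  fun h0 => h (Ideal.Quotient.eq_zero_iff_mem.1 h0)

/-- the defining property of the residue map -/
theorem rr_eq {z : ℂ} {s t : integralClosure ℤ ℂ} (hs : s ∉ M) (h : (s : ℂ) * z = t) :
    rr M z = Ideal.Quotient.mk M t * (Ideal.Quotient.mk M s)⁻¹ := by
  have hz : z ∈ RM M := ⟨s, t, hs, h⟩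
  unfold rr
  rw [dif_pos hz]
  obtain ⟨h1, h2⟩ := hz.choose_spec.choose_spec
  set s' := hz.choose
  set t' := hz.choose_spec.choose
  rw [← div_eq_mul_inv, ← div_eq_mul_inv, div_eq_div_iff (mk_ne h1) (mk_ne hs), ← map_mul,
    ← map_mul]
  refine congrArg _ (Subtype.ext ?_)
  push_cast
  rw [← h, ← h2]
  ring

theorem rr_one : rr M 1 = 1 := by
  rw [rr_eq (s := 1) (t := 1) one_notMem (by simp), map_one, inv_one, mul_one]

theorem rr_zero : rr M 0 = 0 := by
  rw [rr_eq (s := 1) (t := 0) one_notMem (by simp), map_zero, zero_mul]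

theorem rr_mul {a b : ℂ} (ha : a ∈ RM M) (hb : b ∈ RM M) : rr M (a * b) = rr M a * rr M b := by
  obtain ⟨s, t, hs, h⟩ := ha
  obtain ⟨s', t', hs', h'⟩ := hb
  have h1 : s * s' ∉ M := fun h0 => (hM.isPrime.mem_or_mem h0).elim hs hs'
  rw [rr_eq h1 (t := t * t') (by push_cast; rw [← h, ← h']; ring), rr_eq hs h, rr_eq hs' h',
    map_mul, map_mul, mul_inv]
  ring

theorem rr_add {a b : ℂ} (ha : a ∈ RM M) (hb : b ∈ RM M) : rr M (a + b) = rr M a + rr M b := by
  obtain ⟨s, t, hs, h⟩ := ha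
  obtain ⟨s', t', hs', h'⟩ := hb
  have h1 : s * s' ∉ M := fun h0 => (hM.isPrime.mem_or_mem h0).elim hs hs'
  rw [rr_eq h1 (t := t * s' + t' * s) (by push_cast; rw [← h, ← h']; ring), rr_eq hs h,
    rr_eq hs' h', map_add, map_mul, map_mul, map_mul, mul_inv]
  have e1 := mk_ne hs
  have e2 := mk_ne hs'
  field_simp

theorem rr_neg {a : ℂ} (ha : a ∈ RM M) : rr M (-a) = -rr M a := by
  have h := rr_add ha ((RM M).neg_mem ha)
  rw [add_neg_cancel, rr_zero] at h
  exact (neg_eq_of_add_eq_zero_right h.symm).symm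

theorem rr_sub {a b : ℂ} (ha : a ∈ RM M) (hb : b ∈ RM M) : rr M (a - b) = rr M a - rr M b := by
  rw [sub_eq_add_neg, rr_add ha ((RM M).neg_mem hb), rr_neg hb, ← sub_eq_add_neg]

variable (M) in
/-- the residue map as a ring homomorphism -/
def rrHom : RM M →+* FF M where
  toFun z := rr M z
  map_one' := rr_one
  map_zero' := rr_zero
  map_mul' a b := rr_mul a.2 b.2
  map_add' a b := rr_add a.2 b.2

theorem rrHom_apply (z : RM M) : rrHom M z = rr M z := rfl

theorem rr_sum {ι : Type*} (s : Finset ι) (f : ι → ℂ) (h : ∀ i ∈ s, f i ∈ RM M) :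
    rr M (∑ i ∈ s, f i) = ∑ i ∈ s, rr M (f i) := by
  classical
  induction s using Finset.induction_on with
  | empty => rw [Finset.sum_empty, Finset.sum_empty, rr_zero]
  | insert a s ha ih =>
    have h1 : ∀ i ∈ s, f i ∈ RM M := fun i hi => h i (Finset.mem_insert_of_mem hi)
    rw [Finset.sum_insert ha, Finset.sum_insert ha, rr_add (h a (Finset.mem_insert_self _ _))
      (Subring.sum_mem _ h1), ih h1]

theorem rr_prod {ι : Type*} (s : Finset ι) (f : ι → ℂ) (h : ∀ i ∈ s, f i ∈ RM M) :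
    rr M (∏ i ∈ s, f i) = ∏ i ∈ s, rr M (f i) := by
  classical
  induction s using Finset.induction_on with
  | empty => rw [Finset.prod_empty, Finset.prod_empty, rr_one]
  | insert a s ha ih =>
    have h1 : ∀ i ∈ s, f i ∈ RM M := fun i hi => h i (Finset.mem_insert_of_mem hi)
    rw [Finset.prod_insert ha, Finset.prod_insert ha, rr_mul (h a (Finset.mem_insert_self _ _))
      (Subring.prod_mem _ h1), ih h1]

/-- on algebraic integers -/
theorem rr_of_int {z : ℂ} (h : IsIntegral ℤ z) : rr M z = red M z := by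
  rw [rr_eq (s := 1) (t := ⟨z, h⟩) one_notMem (by simp), map_one, inv_one, mul_one]
  unfold red
  rw [dif_pos h]

/-- units of `RM M` -/
theorem inv_RM {z : ℂ} (hz : z ∈ RM M) (h : rr M z ≠ 0) : z⁻¹ ∈ RM M ∧ z ≠ 0 := by
  obtain ⟨s, t, hs, h1⟩ := hz
  have ht : t ∉ M := by
    intro h0
    apply h
    rw [rr_eq hs h1, Ideal.Quotient.eq_zero_iff_mem.2 h0, zero_mul]
  have hz0 : z ≠ 0 := by
    rintro rfl
    exact h rr_zero
  refine ⟨⟨t, s, ht, ?_⟩, hz0⟩
  rw [← h1]
  field_simp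

/-- the residue map is onto -/
theorem rr_surj (c : FF M) : ∃ z ∈ RM M, rr M z = c := by
  obtain ⟨t, rfl⟩ := Ideal.Quotient.mk_surjective c
  refine ⟨t, RM_of_int t.2, ?_⟩
  rw [rr_eq (s := 1) (t := t) one_notMem (by simp), map_one, inv_one, mul_one]

theorem rr_inv {z : ℂ} (hz : z ∈ RM M) (h : rr M z ≠ 0) : rr M z⁻¹ = (rr M z)⁻¹ := by
  obtain ⟨h1, h2⟩ := inv_RM hz h
  have h3 := rr_mul hz h1
  rw [mul_inv_cancel₀ h2, rr_one] at h3
  exact (eq_inv_of_mul_eq_one_right h3.symm)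

/-- the residue of an integer -/
theorem rr_int (n : ℤ) : (n : ℂ) ∈ RM M ∧ rr M (n : ℂ) = (n : FF M) :=
  ⟨intCast_mem (RM M) n, map_intCast (rrHom M) n⟩

theorem rr_nat (n : ℕ) : (n : ℂ) ∈ RM M ∧ rr M (n : ℂ) = (n : FF M) :=
  ⟨natCast_mem (RM M) n, map_natCast (rrHom M) n⟩

/-- an integer with residue zero is divisible by `ℓ` -/
theorem dvd_of_rr {ℓ : ℕ} (hℓ : ℓ.Prime) (hlM : (ℓ : integralClosure ℤ ℂ) ∈ M) {n : ℤ} :
    rr M (n : ℂ) = 0 ↔ (ℓ : ℤ) ∣ n := by
  rw [(rr_int n).2]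
  have h1 : (ℓ : FF M) = 0 := by
    have := Ideal.Quotient.eq_zero_iff_mem.2 hlM
    rwa [map_natCast] at this
  constructor
  · intro h
    by_contra hn
    have hc : IsCoprime (ℓ : ℤ) n := (Nat.prime_iff_prime_int.1 hℓ).coprime_iff_not_dvd.2 hn
    obtain ⟨u, v, huv⟩ := hc
    have h2 := congrArg (Int.cast : ℤ → FF M) huv
    push_cast at h2
    rw [h1, h, mul_zero, mul_zero, add_zero] at h2
    exact zero_ne_one h2
  · rintro ⟨k, rfl⟩
    push_cast
    rw [h1, zero_mul]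

/-- a natural number prime to `ℓ` is a unit -/
theorem inv_nat_RM {ℓ : ℕ} (hℓ : ℓ.Prime) (hlM : (ℓ : integralClosure ℤ ℂ) ∈ M) {n : ℕ}
    (hn : ¬ ℓ ∣ n) : ((n : ℂ))⁻¹ ∈ RM M := by
  refine (inv_RM (rr_nat n).1 fun h => hn ?_).1
  have h1 := (dvd_of_rr (M := M) hℓ hlM (n := n)).1 (by exact_mod_cast h)
  exact_mod_cast h1

end ring

end Pool.Agent.PP.KF
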