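import Pool.Agent.Helper66_KF.Stmts
import Pool.Agent.Helper66_DF.FinE

/-!
# Squad KF: the final theorem
-/

open scoped BigOperators

noncomputable section

namespace Pool.Agent.PP.KF

open Pool.Agent.Helper51_AWC Pool.Agent.Helper79_WRA Pool.Agent.PP

theorem v4_subCl : DF.SubCl V4 := by
  rintro Q R _ _ j hj ⟨i, hi⟩
  exact ⟨i.comp j, hi.comp hj⟩

/-- the final theorem for Klein four defect groups -/
theorem finKF (relq : DF.RelQEStmt) (fst : DF.FstStmt) (gq4 : Gq4Stmt) :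
    ∀ (M : Ideal (integralClosure ℤ ℂ)) [M.IsMaximal],
      (2 : integralClosure ℤ ℂ) ∈ M → ∀ (G : Type) [Group G] [Finite G],
      opCore 2 G ≤ Subgroup.center G → ∀ N : Subgroup G, N.Normal →
      ∀ χ ∈ Irr G, ∀ ψ ∈ Irr N, (∑ᶠ n : N, χ n * starRingEnd ℂ (ψ n)) ≠ 0 →
        LargeDefect 2 M ψ →
        (∃ (x : N) (P : Subgroup N), ¬ Cong M (omega (MonoidHom.id N) ψ x) 0 ∧
          P ≤ Subgroup.centralizer ({x} : Set N) ∧ IsPGroup 2 P ∧
          ¬ 2 ∣ P.relIndex (Subgroup.centralizer ({x} : Set N)) ∧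
          ∃ f : P →* Multiplicative (ZMod 2) × Multiplicative (ZMod 2),
            ∀ u : P, f u = 1 ↔ (u : N) ∈ opCore 2 N) →
        altSum 2 M χ = 0 := by
  intro M _ hM G _ _ hc N hN χ hχ ψ hψ hχψ hL hS
  obtain ⟨x, P, hx, hPC, hPp, hPi, f, hf⟩ := hS
  have hM' : ((2 : ℕ) : integralClosure ℤ ℂ) ∈ M := by exact_mod_cast hM
  have hfact : Fact (Nat.Prime 2) := ⟨Nat.prime_two⟩
  have hn := H75.opCore_normal (A := G) 2
  refine DF.finI relq fst Nat.prime_two hM' v4_subCl hc hN ?_ hχ hψ hχψ hL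
    ⟨x, P, fun h1 => hx ?_, hPC, hPp, hPi, _, inferInstance, f, ⟨MonoidHom.id _,
      Function.injective_id⟩, hf⟩
  · intro S _ _ _ _ _ D _ _ _ _ _ _ e he _ hpos hdf
    exact gq4 M hM D e he hpos hdf
  · have hint : IsIntegral ℤ (omega (MonoidHom.id N) ψ x) :=
      Pool.Agent.Helper51_AWC.omega_integral _ hψ x
    rw [← Pool.Agent.Helper79_WRA.red_eq_iff hint isIntegral_zero, h1,
      Pool.Agent.Helper79_WRA.red_zero]

end Pool.Agent.PP.KF
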